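import Mathlib
import Pool.Agent.Helper45.GoldenCount

set_option autoImplicit false

namespace Pool.Agent.Results.MP_287b0d_an.NotLebesgue

open Filter

/-- The golden mean. -/
noncomputable def phi : ℝ := (1 + Real.sqrt 5) / 2

/-- The spectrum of the golden mean with digits `-1, 0, 1`: all sums `c_1 phi^(n-1) + ... + c_n`. -/
def spectrum : Set ℝ :=
  {x | ∃ (n : ℕ) (c : Fin n → ℤ), (∀ i, c i = -1 ∨ c i = 0 ∨ c i = 1) ∧
    x = ∑ i : Fin n, (c i : ℝ) * phi ^ (n - 1 - (i : ℕ))}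

/-- The number of pairs of 0-1 words `(a, b)` of length `n` with
`(a_1 - b_1) phi^(n-1) + ... + (a_n - b_n) = x`. -/
noncomputable def count (n : ℕ) (x : ℝ) : ℕ :=
  Nat.card {p : (Fin n → Fin 2) × (Fin n → Fin 2) //
    ∑ i : Fin n, (((p.1 i : ℕ) : ℝ) - ((p.2 i : ℕ) : ℝ)) * phi ^ (n - 1 - (i : ℕ)) = x}

/-- The sum of `mu x * g x` over the points `x` of the spectrum in `[0, n]`. -/
noncomputable def total (mu g : ℝ → ℝ) (n : ℕ) : ℝ :=
  ∑ᶠ x ∈ spectrum ∩ Set.Icc (0 : ℝ) n, mu x * g x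

/-- The integral of `f` against the probability measure `nu_n`: the weighted mean of the values
of `f` at the fractional parts of the points of the spectrum in `[0, n]`. -/
noncomputable def nuInt (mu f : ℝ → ℝ) (n : ℕ) : ℝ :=
  total mu (fun x => f (Int.fract x)) n / total mu (fun _ => 1) n

/-- The integral of `f` over the unit interval. -/
noncomputable def lebInt (f : ℝ → ℝ) : ℝ := ∫ t in (0 : ℝ)..1, f t

open Pool.Agent.Helper45.Golden in
theorem total_eq (g : ℝ → ℝ) (n : ℕ) :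
    total mu g n = ∑ x ∈ (B n).filter (fun x => 0 ≤ x), mu x * g x := by
  classical
  unfold total
  rw [finsum_mem_eq_sum_of_inter_support_eq (t := (B n).filter (fun x => 0 ≤ x))]
  ext x
  simp only [Set.mem_inter_iff, Function.mem_support, Set.mem_Icc, Finset.coe_filter, Set.mem_ofPred_eq]
  constructor
  · rintro ⟨⟨hx, h0, h1⟩, hne⟩
    refine ⟨⟨mem_B.mpr ⟨?_, by rw [abs_of_nonneg h0]; exact h1⟩, h0⟩, hne⟩
    obtain ⟨k, c, hc, rfl⟩ := hx
    exact rep_mem_Z k c hc
  · rintro ⟨⟨hx, h0⟩, hne⟩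
    rw [mem_B, abs_of_nonneg h0] at hx
    refine ⟨⟨?_, h0, hx.2⟩, hne⟩
    by_contra hcon
    apply hne
    rw [mu_of_N_zero, zero_mul]
    apply N_zero_of_no_rep
    intro k c hc hsum
    exact hcon ⟨k, c, hc, hsum.symm⟩

open Pool.Agent.Helper45.Golden in
theorem result :
    ∃ (lam : ℝ) (mu : ℝ → ℝ),
      0 < lam ∧
      Tendsto (fun n : ℕ => (count n 0 : ℝ) ^ (1 / (n : ℝ))) atTop (nhds lam) ∧
      (∀ x ∈ spectrum, Tendsto (fun n : ℕ => (count n x : ℝ) / lam ^ n) atTop (nhds (mu x))) ∧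
      (∀ n : ℕ, (spectrum ∩ Set.Icc (0 : ℝ) n).Finite) ∧
      (∀ n : ℕ, 0 < total mu (fun _ => 1) n) ∧
      ∃ f : ℝ → ℝ, Continuous f ∧ ∃ ε : ℝ, 0 < ε ∧
        {n : ℕ | 1 ≤ n ∧ ε ≤ |nuInt mu f n - lebInt f|}.Infinite := by
  refine ⟨lam, mu, lam_pos, ?_, ?_, ?_, ?_, ?_⟩
  · refine growth.congr ?_
    intro n
    rw [N_eq_card]
    rfl
  · intro x _
    refine (mu_lim x).congr ?_
    intro n
    unfold R
    rw [N_eq_card]
    rfl
  · intro n
    refine (Z_fin n).subset ?_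
    rintro x ⟨⟨k, c, hc, rfl⟩, hx⟩
    refine ⟨rep_mem_Z k c hc, ?_, hx.2⟩
    have : (0:ℝ) ≤ n := by positivity
    have := hx.1
    linarith
  · intro n
    rw [total_eq]
    exact one_sided_pos n
  · refine ⟨fun t => Real.cos (2 * Real.pi * t), by fun_prop, c0 / 4, by linarith [c0_pos], ?_⟩
    have h := one_sided.and_eventually (eventually_ge_atTop 1)
    rw [← Nat.frequently_atTop_iff_infinite]
    refine h.mono ?_
    rintro n ⟨h1, h2⟩
    refine ⟨h2, ?_⟩
    have hl : lebInt (fun t => Real.cos (2 * Real.pi * t)) = 0 := integral_cos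
    rw [hl, sub_zero]
    unfold nuInt
    have e : total mu (fun x => Real.cos (2 * Real.pi * Int.fract x)) n =
        ∑ x ∈ (B n).filter (fun x => 0 ≤ x), mu x * cs x := by
      rw [total_eq]
      apply Finset.sum_congr rfl
      intro x _
      rw [cos_fract]
    rw [e, total_eq]
    refine le_trans ?_ (le_abs_self _)
    rw [le_div_iff₀ (one_sided_pos n)]
    exact h1

end Pool.Agent.Results.MP_287b0d_an.NotLebesgue
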